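import Pool.Agent.Helper40.CB.Low
import Pool.Agent.Helper76.CB.ModelB

/-!
# Chow-Betti numbers of hypersimplices do not depend on the realization

All realizations of the combinatorial type of a hypersimplex have the same Chow-Betti numbers, and
so have all realizations of the combinatorial type of the dual of a hypersimplex.
-/

set_option autoImplicit false

namespace Pool.Agent.Results.MP_745f23_co.ChowBettiHypersimplex

open Pool.Agent.Helper40.CB

/-- For all `1 ≤ k ≤ n - 1`, any two rational full-dimensional realizations of the face lattice of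
the hypersimplex `Δ(k,n)` have the same Chow-Betti numbers, and any two realizations of the opposite
lattice have the same Chow-Betti numbers. -/
theorem result (k n : ℕ) (hk : 1 ≤ k) (hkn : k + 1 ≤ n) :
    (∀ P P' : Set (Fin (n - 1) → ℚ), RealizesHyp k n P → RealizesHyp k n P' →
      ∀ j : ℕ, chowBetti P j = chowBetti P' j) ∧
    (∀ P P' : Set (Fin (n - 1) → ℚ), RealizesDualHyp k n P → RealizesDualHyp k n P' →
      ∀ j : ℕ, chowBetti P j = chowBetti P' j) := by
  by_cases h : k = 1 ∨ k + 1 = n
  · constructor
    · intro P P' hP hP' j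
      obtain ⟨M⟩ := Pool.Agent.Helper76.CB.boolModel_hyp (by omega) h hP
      obtain ⟨M'⟩ := Pool.Agent.Helper76.CB.boolModel_hyp (by omega) h hP'
      exact chow_bool M M' (by omega) hP.2.1 hP'.2.1 j
    · intro P P' hP hP' j
      obtain ⟨M⟩ := Pool.Agent.Helper76.CB.boolModel_dual (by omega) h hP
      obtain ⟨M'⟩ := Pool.Agent.Helper76.CB.boolModel_dual (by omega) h hP'
      exact chow_bool M M' (by omega) hP.2.1 hP'.2.1 j
  · constructor
    · intro P P' hP hP' j
      obtain ⟨M⟩ := Pool.Agent.Helper76.CB.hypModel hk hkn hP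
      obtain ⟨M'⟩ := Pool.Agent.Helper76.CB.hypModel hk hkn hP'
      exact chow_hyp M M' (by omega) (by omega) (by omega) hP.2.1 hP'.2.1 j
    · intro P P' hP hP' j
      obtain ⟨M⟩ := Pool.Agent.Helper76.CB.dualModel (by omega) (by omega) hP
      obtain ⟨M'⟩ := Pool.Agent.Helper76.CB.dualModel (by omega) (by omega) hP'
      exact chow_dual M M' (by omega) (by omega) (by omega) hP.2.1 hP'.2.1 j

end Pool.Agent.Results.MP_745f23_co.ChowBettiHypersimplex
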